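import Pool.Agent.H444.MH.Stm

set_option autoImplicit false

/-! Project MH (helper444): the number of zeros in a window of `H` mean spacings (`S_LLN`). -/

namespace Pool.Agent.H161.MH

open Filter Topology MeasureTheory Complex
open scoped ComplexConjugate
open Pool.Agent.Q97.UM
open Pool.Agent.H444.MH

lemma lln_cnt_meas (T H : ℝ) : Measurable (cnt T H) ∧ ∃ B, ∀ t, |cnt T H t| ≤ B := by
  classical
  have h := sum_filter_meas (ZD T) (fun s t => |s.im - t| ≤ H / Real.log T) (fun s => meas_near s _)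
    (fun s => (mz s : ℝ))
  have e : cnt T H = fun t => ∑ i ∈ (ZD T).filter (fun s => |s.im - t| ≤ H / Real.log T), (mz i : ℝ) := by
    funext t
    unfold cnt
    congr
  rw [e]
  exact ⟨h.1, _, h.2⟩

/-- inside the interval the two counts agree -/
lemma lln_cnt_eq {T H t : ℝ} (hT : 16 ≤ T) (hL : 2 ≤ Real.log T) (hH : H ≤ Real.log T)
    (h1 : T + 2 * Real.log T ≤ t) (h2 : t ≤ 2 * T - 2 * Real.log T) :
    cnt T H t = Nw T (H / Real.log T) t := by
  classical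
  have hr : H / Real.log T ≤ 1 := by rw [div_le_one (by linarith)]; exact hH
  have e : (ZD T).filter (fun s => |s.im - t| ≤ H / Real.log T) =
      (ZT T).filter (fun s => |s.im - t| ≤ H / Real.log T) := by
    ext s
    rw [Finset.mem_filter, Finset.mem_filter]
    unfold ZD ZT
    rw [H370.mem_Zf H370.good_zeta (by linarith), H370.mem_Zf H370.good_zeta (by linarith)]
    constructor
    · rintro ⟨⟨a1, a2, a3, a4, a5⟩, hs⟩
      have h3 := abs_le.1 (hs.trans hr)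
      exact ⟨⟨a1, a2, by linarith [h3.1], by linarith [h3.2], a5⟩, hs⟩
    · rintro ⟨⟨a1, a2, a3, a4, a5⟩, hs⟩
      exact ⟨⟨a1, a2, by linarith, by linarith, a5⟩, hs⟩
  have e1 : cnt T H t = ∑ s ∈ (ZD T).filter (fun s => |s.im - t| ≤ H / Real.log T), (mz s : ℝ) := by
    unfold cnt
    congr
  have e2 : Nw T (H / Real.log T) t = ∑ s ∈ (ZT T).filter (fun s => |s.im - t| ≤ H / Real.log T), (mz s : ℝ) := by
    unfold Nw
    congr
  rw [e1, e2, e]

theorem t_LLN : S_LLN := by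
  obtain ⟨θ₁, c₀, C₂, hθ₁0, hθ₁1, hc₀, hC₂, hEDB⟩ := b_EDB
  obtain ⟨c, hc⟩ : ∃ c, c = min c₀ 1 := ⟨_, rfl⟩
  have hc0 : 0 < c := by rw [hc]; positivity
  have hEDB' : EDB θ₁ c C₂ := EDB_mono hC₂ (by rw [hc]; exact min_le_left _ _) hEDB
  obtain ⟨K₀, hER⟩ := b_ERR θ₁ c C₂ hθ₁0 hθ₁1 hc0 (by rw [hc]; exact min_le_right _ _) hC₂ hEDB'
  obtain ⟨K, hKd⟩ : ∃ K, K = max K₀ 2 := ⟨_, rfl⟩
  have hK2 : 2 ≤ K := by rw [hKd]; exact le_max_right _ _
  have hKK : K₀ ≤ K := by rw [hKd]; exact le_max_left _ _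
  obtain ⟨δ, hδ⟩ : ∃ δ, δ = min (c / 100) (1 / 16) := ⟨_, rfl⟩
  have hδ0 : 0 < δ := by rw [hδ]; positivity
  have hδ1 : δ ≤ c / 100 := by rw [hδ]; exact min_le_left _ _
  have hδ2 : δ ≤ 1 / 16 := by rw [hδ]; exact min_le_right _ _
  obtain ⟨C₄, hC₄, hER⟩ := hER K hKK δ hδ0 hδ1
  obtain ⟨Cw, hCw, hOM⟩ := Pool.Agent.Q247.UM.t_OMEX K δ hδ0 (by linarith)
  obtain ⟨C₀, hC₀, hPU⟩ := b_PU
  obtain ⟨lam, g, R, hl0, hl1, hg, hR, hK, hcR⟩ := Pool.Agent.Q222.UM.t_MTW 1 one_pos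
  have hpi := Real.pi_pos
  have hpi3 := Real.pi_gt_three
  obtain ⟨A, hA⟩ : ∃ A : ℝ, A = 100 * Cw ^ 2 * C₄ + (C₀ * (1 + 4 * Cw ^ 4) + 1) + 2 * (2 + 2 * Cw ^ 2) := ⟨_, rfl⟩
  have hA1 : 1 ≤ A := by
    rw [hA]
    have h1 : 0 ≤ 100 * Cw ^ 2 * C₄ := by positivity
    have h2 : 0 ≤ C₀ * (1 + 4 * Cw ^ 4) := by positivity
    have h3 : 0 ≤ Cw ^ 2 := by positivity
    linarith
  refine ⟨A, hA1, fun H hH1 => ?_⟩
  obtain ⟨w, hw⟩ := hOM H hH1
  obtain ⟨-, -, -, -, hq0, hI2⟩ := Pool.Agent.Q176.UM.t_QH δ H Cw K w hδ0 (by linarith) hH1 hCw hK2 hw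
  obtain ⟨D', hD', hQB⟩ := Pool.Agent.Q150.UM.qb_of Pool.Agent.Q176.UM.t_QH Pool.Agent.Q247.UM.t_QLF hδ0
    (by linarith) hH1 hCw hK2 hw
  obtain ⟨D, hD0, eEF⟩ := b_EFL δ H Cw K w hδ0 (by linarith) hH1 hCw hK2 hw
  have hI20 : 0 ≤ I2 w := by
    unfold I2
    exact integral_nonneg fun v => sq_nonneg _
  have hI2up : I2 w ≤ (1 + 4 * Cw ^ 4) * H := by
    have h1 := (abs_le.1 hI2).2
    have h2 : 0 ≤ Cw ^ 4 := by positivity
    nlinarith [mul_nonneg h2 (by linarith : 0 ≤ H - 1)]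
  have hqH : |qh w 0 - H / Real.pi| ≤ 2 * Cw ^ 2 := by
    have e1 : Real.pi * qh w 0 - H = Real.pi * (qh w 0 - H / Real.pi) := by field_simp
    rw [e1, abs_mul, abs_of_pos hpi] at hq0
    have h2 := abs_nonneg (qh w 0 - H / Real.pi)
    have h3 : 0 ≤ Cw ^ 2 := by positivity
    nlinarith
  have hsH : 1 ≤ Real.sqrt H := by rw [Real.one_le_sqrt]; exact hH1
  have hsH0 : 0 < Real.sqrt H := by linarith
  have hsHH : Real.sqrt H * Real.sqrt H = H := Real.mul_self_sqrt (by linarith)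
  obtain ⟨θ, hθ⟩ : ∃ θ, θ = min θ₁ (1 / 40) := ⟨_, rfl⟩
  have hθ0 : 0 < θ := by rw [hθ]; positivity
  have hθ1 : θ ≤ θ₁ := by rw [hθ]; exact min_le_left _ _
  have hθ2 : θ ≤ 1 / 40 := by rw [hθ]; exact min_le_right _ _
  have hsθ : Real.sqrt θ ≤ 1 / 2 := by
    rw [Real.sqrt_le_left (by norm_num)]
    linarith
  refine ⟨θ, hθ0, hθ2, ?_⟩
  have ePU := hPU δ H Cw K w θ 1 hδ0 hδ2 hH1 hCw hK2 hw hθ0 hθ2 one_pos
  have eDE := b_DET g R lam hg hR hK hl0 hl1.le δ H Cw K w hδ0 (by linarith) hH1 hCw hK2 hw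
  have eER := hER H hH1
  have eLog : ∀ᶠ T : ℝ in atTop, max (max 2 (D + D')) H ≤ Real.log T :=
    Real.tendsto_log_atTop.eventually_ge_atTop _
  filter_upwards [ePU, eDE, eER, eEF, eLog, eventually_ge_atTop (16 : ℝ)] with T ePU eDE eER eEF eLog hT16
  have hT0 : 0 < T := by linarith
  have hT1 : 1 ≤ T := by linarith
  have hL2 : 2 ≤ Real.log T := (le_max_left _ _).trans ((le_max_left _ _).trans eLog)
  have hLD : D + D' ≤ Real.log T := (le_max_right _ _).trans ((le_max_left _ _).trans eLog)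
  have hLH : H ≤ Real.log T := (le_max_right _ _).trans eLog
  have hL0 : 0 < Real.log T := by linarith
  have hL4 : 4 * Real.log T ≤ T := by
    have h5 := Real.log_le_sub_one_of_pos (show (0 : ℝ) < T / 16 by positivity)
    rw [Real.log_div (by positivity) (by norm_num)] at h5
    have h6 : Real.log 16 ≤ 3 := by
      have : Real.log 16 = 4 * Real.log 2 := by
        rw [show (16 : ℝ) = 2 ^ 4 by norm_num, Real.log_pow]; norm_num
      rw [this]; have := Real.log_two_lt_d9; linarith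
    linarith
  have hxy : T + 2 * Real.log T ≤ 2 * T - 2 * Real.log T := by linarith
  obtain ⟨mC, B, hB⟩ := lln_cnt_meas T H
  have mf : Measurable (fun t => |cnt T H t - H / Real.pi|) := (mC.sub measurable_const).norm
  refine ⟨fun t => abs_nonneg _, mf, fun N hN b => ?_⟩
  have hNθ₁ : (N : ℝ) ≤ T ^ θ₁ := hN.trans (Real.rpow_le_rpow_of_exponent_le hT1 hθ1)
  have hN4 : (N : ℝ) ≤ T ^ (1 / 4 : ℝ) := hN.trans (Real.rpow_le_rpow_of_exponent_le hT1 (by linarith))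
  have hdpc : Continuous (dp N b) := (Pool.Agent.Q84.UM.t_DPM.2.2 N b 0).2
  have hVc : Continuous (fun t : ℝ => ‖dp N b t‖ ^ 2) := (hdpc.norm).pow 2
  have hVi : ∀ x y : ℝ, IntervalIntegrable (fun t : ℝ => ‖dp N b t‖ ^ 2) volume x y :=
    fun x y => hVc.intervalIntegrable x y
  have iF : IntervalIntegrable (fun t => |cnt T H t - H / Real.pi| * ‖dp N b t‖ ^ 2) volume
      (T + 2 * Real.log T) (2 * T - 2 * Real.log T) := by
    refine ii_mul (B := B + |H / Real.pi|) mf (fun t => ?_) hVc _ _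
    rw [abs_abs]
    exact (abs_sub _ _).trans (by linarith [hB t])
  refine ⟨iF, ?_⟩
  have hN2 := N2_nonneg N b
  obtain ⟨W, hW⟩ : ∃ W, W = T * N2 N b := ⟨_, rfl⟩
  have hW0 : 0 ≤ W := by rw [hW]; exact mul_nonneg hT0.le hN2
  -- the three means
  have m1 := eER N hNθ₁ b
  have m2 := ePU N hN b 0 (T + 2 * Real.log T) (2 * T - 2 * Real.log T) (by linarith)
    (by apply mul_nonneg _ hL0.le; linarith) (by linarith) hxy (by linarith)
  rw [max_self, zero_div, mul_zero, zero_mul, zero_mul, sub_zero] at m2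
  have m3 : ∫ t in (T + 2 * Real.log T)..(2 * T - 2 * Real.log T), ‖dp N b t‖ ^ 2 ≤ 2 * W := by
    have h1 := (Pool.Agent.Q84.UM.t_MVL T hT16 N hN4 b).2
    refine le_trans ?_ (h1.trans (by rw [hW]; linarith))
    refine intervalIntegral.integral_mono_interval (by linarith) hxy (by linarith) ?_ (hVi _ _)
    exact Eventually.of_forall fun t => by positivity
  obtain ⟨mE, ⟨B4, bE⟩, eE⟩ := ErrS_meas (δ := δ) hH1 K T
  have iE := ii_mul mE bE hVc (T + 2 * Real.log T) (2 * T - 2 * Real.log T)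
  have hQ := hQB (Real.log T) (by linarith)
  have hPc : Continuous (fun t => ‖PL w (Real.log T) 0 t‖) :=
    (Pool.Agent.Q150.UM.PL_cont hQ (by linarith) (by positivity) hL0 0).norm
  have iP : IntervalIntegrable (fun t => ‖PL w (Real.log T) 0 t‖ ^ 2 * ‖dp N b t‖ ^ 2) volume
      (T + 2 * Real.log T) (2 * T - 2 * Real.log T) := ((hPc.pow 2).mul hVc).intervalIntegrable _ _
  have hcε : (D + D') / Real.log T ≤ 1 := by rw [div_le_one hL0]; exact hLD
  -- pointwise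
  have hpt : ∀ t : ℝ, T + 2 * Real.log T ≤ t → t ≤ 2 * T - 2 * Real.log T → |cnt T H t - H / Real.pi| ≤
      100 * Cw ^ 2 * ErrS δ H K T t + (1 / Real.sqrt H * ‖PL w (Real.log T) 0 t‖ ^ 2) +
        (1 + 2 * Cw ^ 2 + Real.sqrt H) := by
    intro t ht1 ht2
    have h2 := eEF 0 t le_rfl (mul_nonneg (by linarith) hL0.le) ht1 ht2
    have e1 : cexp (-(I * ((0 : ℝ) : ℂ) * t)) = 1 := by simp
    rw [e1, one_mul, neg_zero] at h2
    have h3 := (Complex.abs_re_le_norm _).trans h2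
    have e2 : (Zt w T 0 t - ((QL w (Real.log T) 0 : ℂ) - PL w (Real.log T) 0 t - conj (PL w (Real.log T) 0 t))).re =
        (Zt w T 0 t).re - QL w (Real.log T) 0 + 2 * (PL w (Real.log T) 0 t).re := by
      simp only [Complex.sub_re, Complex.ofReal_re, Complex.conj_re]
      ring
    rw [e2] at h3
    have h4 := hQ.zero
    have h5 := Complex.abs_re_le_norm (PL w (Real.log T) 0 t)
    have h6 := (eDE t ht1 ht2).2.2
    rw [← lln_cnt_eq hT16 hL2 hLH ht1 ht2] at h6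
    have h7 : (D + D') / Real.log T = D / Real.log T + D' / Real.log T := by ring
    have h8 : 2 * ‖PL w (Real.log T) 0 t‖ ≤ 1 / Real.sqrt H * ‖PL w (Real.log T) 0 t‖ ^ 2 + Real.sqrt H := by
      have e3 : 0 ≤ (‖PL w (Real.log T) 0 t‖ - Real.sqrt H) ^ 2 / Real.sqrt H := by positivity
      have e4 : (‖PL w (Real.log T) 0 t‖ - Real.sqrt H) ^ 2 / Real.sqrt H =
          1 / Real.sqrt H * ‖PL w (Real.log T) 0 t‖ ^ 2 - 2 * ‖PL w (Real.log T) 0 t‖ + Real.sqrt H := by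
        field_simp
        ring
      linarith
    have h9 := abs_le.1 h3
    have h10 := abs_le.1 h4
    have h11 := abs_le.1 h5
    have h12 := abs_le.1 h6
    have h13 := abs_le.1 hqH
    rw [abs_le]
    constructor
    · linarith [h9.1, h9.2, h10.1, h10.2, h11.1, h11.2, h12.1, h12.2, h13.1, h13.2]
    · linarith [h9.1, h9.2, h10.1, h10.2, h11.1, h11.2, h12.1, h12.2, h13.1, h13.2]
  -- integration
  have iG : IntervalIntegrable (fun t => 100 * Cw ^ 2 * (ErrS δ H K T t * ‖dp N b t‖ ^ 2) +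
      (1 / Real.sqrt H * (‖PL w (Real.log T) 0 t‖ ^ 2 * ‖dp N b t‖ ^ 2)) +
        (1 + 2 * Cw ^ 2 + Real.sqrt H) * ‖dp N b t‖ ^ 2) volume
      (T + 2 * Real.log T) (2 * T - 2 * Real.log T) :=
    ((iE.const_mul _).add (iP.const_mul _)).add ((hVi _ _).const_mul _)
  have hmono : ∫ t in (T + 2 * Real.log T)..(2 * T - 2 * Real.log T), |cnt T H t - H / Real.pi| * ‖dp N b t‖ ^ 2 ≤
      ∫ t in (T + 2 * Real.log T)..(2 * T - 2 * Real.log T), (100 * Cw ^ 2 * (ErrS δ H K T t * ‖dp N b t‖ ^ 2) +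
      (1 / Real.sqrt H * (‖PL w (Real.log T) 0 t‖ ^ 2 * ‖dp N b t‖ ^ 2)) +
        (1 + 2 * Cw ^ 2 + Real.sqrt H) * ‖dp N b t‖ ^ 2) := by
    refine intervalIntegral.integral_mono_on hxy iF iG fun t ht => ?_
    have h1 := mul_le_mul_of_nonneg_right (hpt t ht.1 ht.2) (by positivity : 0 ≤ ‖dp N b t‖ ^ 2)
    calc _ ≤ _ := h1
      _ = _ := by ring
  rw [intervalIntegral.integral_add ((iE.const_mul _).add (iP.const_mul _)) ((hVi _ _).const_mul _),
    intervalIntegral.integral_add (iE.const_mul _) (iP.const_mul _), intervalIntegral.integral_const_mul,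
    intervalIntegral.integral_const_mul, intervalIntegral.integral_const_mul] at hmono
  refine hmono.trans ?_
  have b1 : 100 * Cw ^ 2 * (∫ t in (T + 2 * Real.log T)..(2 * T - 2 * Real.log T), ErrS δ H K T t * ‖dp N b t‖ ^ 2) ≤
      100 * Cw ^ 2 * C₄ * Real.sqrt H * W := by
    have h1 : (∫ t in (T + 2 * Real.log T)..(2 * T - 2 * Real.log T), ErrS δ H K T t * ‖dp N b t‖ ^ 2) ≤ C₄ * W := by
      refine m1.trans (le_of_eq ?_)
      rw [hW]; ring
    have h2 : C₄ * W ≤ C₄ * (Real.sqrt H * W) := by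
      apply mul_le_mul_of_nonneg_left _ hC₄
      nlinarith
    calc _ ≤ 100 * Cw ^ 2 * (C₄ * (Real.sqrt H * W)) := mul_le_mul_of_nonneg_left (h1.trans h2) (by positivity)
      _ = _ := by ring
  have b2 : 1 / Real.sqrt H * (∫ t in (T + 2 * Real.log T)..(2 * T - 2 * Real.log T),
      ‖PL w (Real.log T) 0 t‖ ^ 2 * ‖dp N b t‖ ^ 2) ≤ (C₀ * (1 + 4 * Cw ^ 4) + 1) * Real.sqrt H * W := by
    have h1 := (abs_le.1 m2).2
    have h2 : C₀ * (δ + Real.sqrt θ) * I2 w + 1 ≤ (C₀ * (1 + 4 * Cw ^ 4) + 1) * H := by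
      have h3 : C₀ * (δ + Real.sqrt θ) ≤ C₀ * 1 := mul_le_mul_of_nonneg_left (by linarith) (by linarith)
      have h4 : C₀ * (δ + Real.sqrt θ) * I2 w ≤ C₀ * 1 * ((1 + 4 * Cw ^ 4) * H) :=
        mul_le_mul h3 hI2up hI20 (by linarith)
      linarith
    have h3 : (∫ t in (T + 2 * Real.log T)..(2 * T - 2 * Real.log T),
        ‖PL w (Real.log T) 0 t‖ ^ 2 * ‖dp N b t‖ ^ 2) ≤ (C₀ * (1 + 4 * Cw ^ 4) + 1) * H * W := by
      refine h1.trans ?_
      calc (C₀ * (δ + Real.sqrt θ) * I2 w + 1) * T * N2 N b = (C₀ * (δ + Real.sqrt θ) * I2 w + 1) * W := by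
            rw [hW]; ring
        _ ≤ _ := mul_le_mul_of_nonneg_right h2 hW0
    calc _ ≤ 1 / Real.sqrt H * ((C₀ * (1 + 4 * Cw ^ 4) + 1) * H * W) := mul_le_mul_of_nonneg_left h3 (by positivity)
      _ = 1 / Real.sqrt H * ((C₀ * (1 + 4 * Cw ^ 4) + 1) * (Real.sqrt H * Real.sqrt H) * W) := by rw [hsHH]
      _ = (C₀ * (1 + 4 * Cw ^ 4) + 1) * Real.sqrt H * W := by field_simp
  have b3 : (1 + 2 * Cw ^ 2 + Real.sqrt H) * (∫ t in (T + 2 * Real.log T)..(2 * T - 2 * Real.log T), ‖dp N b t‖ ^ 2) ≤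
      2 * (2 + 2 * Cw ^ 2) * Real.sqrt H * W := by
    have h1 : 1 + 2 * Cw ^ 2 + Real.sqrt H ≤ (2 + 2 * Cw ^ 2) * Real.sqrt H := by
      have : 0 ≤ Cw ^ 2 := by positivity
      nlinarith [mul_nonneg this (by linarith : 0 ≤ Real.sqrt H - 1)]
    calc _ ≤ (1 + 2 * Cw ^ 2 + Real.sqrt H) * (2 * W) := mul_le_mul_of_nonneg_left m3 (by positivity)
      _ ≤ (2 + 2 * Cw ^ 2) * Real.sqrt H * (2 * W) := mul_le_mul_of_nonneg_right h1 (by linarith)
      _ = _ := by ring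
  have hfin : A * Real.sqrt H * T * N2 N b = 100 * Cw ^ 2 * C₄ * Real.sqrt H * W +
      (C₀ * (1 + 4 * Cw ^ 4) + 1) * Real.sqrt H * W + 2 * (2 + 2 * Cw ^ 2) * Real.sqrt H * W := by
    rw [hA, hW]; ring
  rw [hfin]
  linarith

end Pool.Agent.H161.MH
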